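import Pool.Agent.Sub70.LT.Avg

/-!
# The average doubling index of all eigenfunctions on a Liouville torus

The torus is `ℝ × ℝ` modulo the lattice generated by `(L, 0)` and `(0, 2π)`, with the Liouville metric
`(f(x) + g(y))(dx² + dy²)`, where `f` and `g` are continuous (`L`- and `2π`-periodic) with
`f(x) + g(y) > 0`; the multiplicities of the eigenvalues are not restricted.

Proof. (i) Eigenspaces are finite dimensional, so every eigenfunction is a finite sum of joint
eigenfunctions `X(x) Y(y)` with `X'' = (μ - λ f) X`, `|μ| ≤ C λ`. (ii) By Sturm's argument (the number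
of zeros of a combination of solutions does not increase under the inverse flow), the restriction of an
eigenfunction to a circle `y = const` or `x = const` has at most `C √λ` zeros if it does not vanish
identically. (iii) Local estimate: in a square `R` of side `c / √λ` let `ψ > 0` be a separated solution
close to one; for an eigenfunction `φ` the field `ψ∇φ - φ∇ψ` is divergence free, with conjugate `Q`; for
small `δ` the logarithm of `(ψ √(φ² + δ²ψ²) + ε)² + Q²` has almost nonnegative Laplacian up to a small
drift, and its flux through the boundary of `R` is at most `π` times the number of the zeros of `φ` on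
the boundary, plus a constant. So the growth of `φ` is at most `exp (C (m + 1))` if `φ` has `m` zeros on
the boundary of the square. (iv) One sums over the squares of a grid of mesh `c / √λ` none of whose lines
is nodal: there are `C √λ` lines, and each carries at most `C √λ` zeros.
-/

set_option autoImplicit false

namespace Pool.Agent.Results.MP_c7f82c_an.LiouvilleAverage

open Pool.Agent.Y291.DB

/-- Let `f`, `g` be continuous, `L`-periodic and `2π`-periodic, with `f(x) + g(y) > 0`, and consider
the torus `ℝ²/(Lℤ × 2πℤ)` with the metric `(f(x) + g(y))(dx² + dy²)`. For all `C > 0` and `C₁`, `C₂`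
there is `a` such that for every eigenvalue `lam`, every eigenfunction `φ` and every admissible covering
for `φ` with constants `C`, `C₁`, `C₂`, the average of the doubling indices of the discs is at most
`a`. -/
theorem result (f g : ℝ → ℝ) (L : ℝ) (hL : 0 < L) (hf : Continuous f) (hg : Continuous g)
    (hfL : ∀ x, f (x + L) = f x) (hgp : ∀ y, g (y + 2 * Real.pi) = g y)
    (hpos : ∀ x y, 0 < f x + g y) (C C₁ C₂ : ℝ) (hC : 0 < C) :
    ∃ a : ℝ, 0 < a ∧ ∀ (lam : ℝ) (φ : ℝ × ℝ → ℝ), Eigen (fun p => f p.1 + g p.2) L 0 lam φ →
      ∀ (ι : Type) [Fintype ι] (c : ι → ℝ × ℝ),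
        Admissible (fun p => f p.1 + g p.2) L 0 lam φ C C₁ C₂ c →
        ∑ i, doubling (fun p => f p.1 + g p.2) L 0 φ (c i) (C / Real.sqrt lam) ≤
          a * Fintype.card ι :=
  Pool.Agent.Sub70.LT.average f g L hL hf hg hfL hgp hpos C C₁ C₂ hC

end Pool.Agent.Results.MP_c7f82c_an.LiouvilleAverage
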