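import Mathlib
import Pool.Agent.Helper70x.AP.Fin
import Pool.Agent.Q73.AD.TR1
import Pool.Agent.Q63.ISE.Man

/-!
# Moments of the doubling index of order below two (MP_c7f82c_an, Q1 in a stronger form)

For every closed connected Riemannian surface the average of `N(B_i)` over admissible coverings by discs of
radius `C / √λ` is bounded (this is Q1), and so is the average of `N(B_i) ^ q` for every `q < 2`. There is also a
local form: for the discs with centres in a disc of any radius `ϱ` between `C₀ / √λ` and `ϱ₁`, the sum of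
`N(B_i) ^ q` is at most `A λ ϱ²` times the `q`-th power of `1 + (growth exponent of f from radius ϱ to K ϱ) / (√λ ϱ)`.
The surface is a Riemannian manifold of dimension two in the sense of Mathlib; it has isothermal charts by
`Pool.Agent.Q63.ISE.atlas`.
-/

set_option autoImplicit false
open MeasureTheory Filter Topology Complex Bundle
open scoped ContDiff Manifold

namespace Pool.Agent.Results.MP_c7f82c_an.MomentsBelowTwo

noncomputable section

universe u v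

/-- the Laplacian of the plane `ℂ`: `∂_x² + ∂_y²` -/
def laplacian (f : ℂ → ℝ) (z : ℂ) : ℝ :=
  fderiv ℝ (fun w => fderiv ℝ f w 1) z 1 + fderiv ℝ (fun w => fderiv ℝ f w I) z I

/-- The lengths of the piecewise `C¹` curves from `x` to `y` on a surface with charts
`φ i : U i → M` and the metric `ρ i |dz|²` in the `i`-th chart: the `k`-th piece of the curve is
`φ (i k) ∘ γ k` on `[0, 1]`, it goes from `P k` to `P (k + 1)`. -/
def curveLengths {M : Type u} {ι : Type v} (U : ι → Set ℂ) (φ : ι → ℂ → M) (ρ : ι → ℂ → ℝ)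
    (x y : M) : Set ℝ :=
  {l | ∃ (n : ℕ) (i : ℕ → ι) (γ : ℕ → ℝ → ℂ) (P : ℕ → M), P 0 = x ∧ P n = y ∧
    (∀ k < n, ContDiff ℝ 1 (γ k) ∧ (∀ t ∈ Set.Icc (0 : ℝ) 1, γ k t ∈ U (i k)) ∧
      φ (i k) (γ k 0) = P k ∧ φ (i k) (γ k 1) = P (k + 1)) ∧
    l = ∑ k ∈ Finset.range n, ∫ t in (0 : ℝ)..1, Real.sqrt (ρ (i k) (γ k t)) * ‖deriv (γ k) t‖}

/-- A Riemannian surface given by isothermal charts: the charts `φ i`, defined on the open subsets `U i`
of the plane, are homeomorphisms onto open sets that cover `M`; in the `i`-th chart the metric is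
`ρ i |dz|²` with `ρ i > 0` of class `C¹`; the transition maps are isometries for these metrics; the
distance of `M` is the geodesic distance, the infimum of the lengths of curves. -/
structure RiemannianSurface {M : Type u} {ι : Type v} [MetricSpace M] (U : ι → Set ℂ)
    (φ : ι → ℂ → M) (ρ : ι → ℂ → ℝ) : Prop where
  isOpen_domain : ∀ i, IsOpen (U i)
  injective_chart : ∀ i, Set.InjOn (φ i) (U i)
  continuous_chart : ∀ i, ContinuousOn (φ i) (U i)
  open_chart : ∀ i (S : Set ℂ), IsOpen S → S ⊆ U i → IsOpen (φ i '' S)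
  cover : ∀ x : M, ∃ i, x ∈ φ i '' U i
  density_pos : ∀ i, ∀ z ∈ U i, 0 < ρ i z
  density_smooth : ∀ i, ContDiffOn ℝ 1 (ρ i) (U i)
  transition : ∀ i j, ∀ z ∈ U i, ∀ w ∈ U j, φ i z = φ j w → ∃ τ : ℂ → ℂ, τ z = w ∧
    (∀ᶠ z' in 𝓝 z, τ z' ∈ U j ∧ φ j (τ z') = φ i z') ∧ DifferentiableAt ℝ τ z ∧
    ∀ v : ℂ, ρ j w * ‖fderiv ℝ τ z v‖ ^ 2 = ρ i z * ‖v‖ ^ 2
  geodesic : ∀ x y : M, dist x y = sInf (curveLengths U φ ρ x y)

/-- `f` is a real smooth eigenfunction on `M`, `Δ_g f + lam f = 0`, `f ≢ 0`: in the chart `φ i` the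
Laplace-Beltrami operator is `Δ / ρ i` -/
structure IsEigenfunction {M : Type u} {ι : Type v} (U : ι → Set ℂ) (φ : ι → ℂ → M)
    (ρ : ι → ℂ → ℝ) (lam : ℝ) (f : M → ℝ) : Prop where
  smooth : ∀ i, ContDiffOn ℝ ∞ (fun z => f (φ i z)) (U i)
  eq : ∀ i, ∀ z ∈ U i, laplacian (fun z => f (φ i z)) z + lam * ρ i z * f (φ i z) = 0
  ne : ∃ x, f x ≠ 0

/-! ### Riemannian manifolds of dimension two in the sense of Mathlib, modelled on a real normed space `E`
with a basis `b` of two vectors (for instance the Euclidean plane) -/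

section

variable {E : Type v} [NormedAddCommGroup E] [NormedSpace ℝ E] (b : Module.Basis (Fin 2) ℝ E)
  {M : Type u} [TopologicalSpace M] [ChartedSpace E M]

/-- the coordinate vector `∂_i` of the chart at `x₀`, at the point with coordinates `z` -/
def coordVec (x₀ : M) (z : E) (i : Fin 2) :
    TangentSpace 𝓘(ℝ, E) ((extChartAt 𝓘(ℝ, E) x₀).symm z) :=
  mfderiv 𝓘(ℝ, E) 𝓘(ℝ, E) (extChartAt 𝓘(ℝ, E) x₀).symm z (b i)

/-- the matrix `g_ij = ⟨∂_i, ∂_j⟩` of the metric in the chart at `x₀` -/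
def metricMatrix [RiemannianBundle (fun x : M => TangentSpace 𝓘(ℝ, E) x)] (x₀ : M) (z : E) :
    Matrix (Fin 2) (Fin 2) ℝ :=
  Matrix.of fun i j => inner ℝ (coordVec b x₀ z i) (coordVec b x₀ z j)

/-- the Laplace-Beltrami operator in coordinates: `(det g)^(-1/2) ∑_i ∂_i ((det g)^(1/2) ∑_j g^ij ∂_j h)` -/
def laplaceBeltrami (g : E → Matrix (Fin 2) (Fin 2) ℝ) (h : E → ℝ) (z : E) : ℝ :=
  (√((g z).det))⁻¹ * ∑ i, fderiv ℝ (fun y => √((g y).det) *
    ∑ j, (g y)⁻¹ i j * fderiv ℝ h y (b j)) z (b i)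

/-- `f` is a real smooth eigenfunction on the Riemannian manifold `M`: `Δ_g f + lam f = 0`, `f ≢ 0` -/
structure IsEigenfunctionOn [RiemannianBundle (fun x : M => TangentSpace 𝓘(ℝ, E) x)] (lam : ℝ)
    (f : M → ℝ) : Prop where
  smooth : ContMDiff 𝓘(ℝ, E) 𝓘(ℝ, ℝ) ∞ f
  eq : ∀ x₀ : M, ∀ z ∈ (extChartAt 𝓘(ℝ, E) x₀).target,
    laplaceBeltrami b (metricMatrix b x₀) (fun y => f ((extChartAt 𝓘(ℝ, E) x₀).symm y)) z
      + lam * f ((extChartAt 𝓘(ℝ, E) x₀).symm z) = 0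
  ne : ∃ x, f x ≠ 0

end

/-- the supremum of `|f|` over a set -/
def supNorm {M : Type u} (f : M → ℝ) (S : Set M) : ℝ := sSup ((fun y => |f y|) '' S)

/-- the doubling index of `f` on the geodesic disc with centre `x` and radius `r` -/
def doubling {M : Type u} [MetricSpace M] (f : M → ℝ) (x : M) (r : ℝ) : ℝ :=
  Real.logb 2 (supNorm f (Metric.ball x (2 * r)) / supNorm f (Metric.ball x r))

/-- every point of `M` lies in at most `C₁` of the discs of radius `C / √lam` with centres `x i` -/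
def Multiplicity {M : Type u} [MetricSpace M] (lam C C₁ : ℝ) {κ : Type} (x : κ → M) : Prop :=
  ∀ y : M, ({i | y ∈ Metric.ball (x i) (C / Real.sqrt lam)}.ncard : ℝ) ≤ C₁

/-- the geodesic discs of radius `C / √lam` with centres `x i` are an admissible covering for `f` with
constants `C`, `C₁`, `C₂` -/
structure Admissible {M : Type u} [MetricSpace M] (f : M → ℝ) (lam C C₁ C₂ : ℝ) {κ : Type}
    [Fintype κ] (x : κ → M) : Prop where
  cover : ∀ y : M, ∃ i, y ∈ Metric.ball (x i) (C / Real.sqrt lam)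
  card_ge : C₂⁻¹ * lam ≤ Fintype.card κ
  card_le : Fintype.card κ ≤ C₂ * lam
  mult : ∀ y : M, ({i | y ∈ Metric.ball (x i) (C / Real.sqrt lam)}.ncard : ℝ) ≤ C₁
  zero : ∀ i, f (x i) = 0

/-- The theorem for a surface with a set `Eigen lam` of eigenfunctions with eigenvalue `lam`: the average of the
doubling indices (Q1); the average of their `q`-th powers for `1 ≤ q < 2`, for families of discs which need not
cover and need not be centred at zeros; the local form at all scales from `C₀ / √lam` to `ϱ₁`. -/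
def Conclusion (M : Type u) [MetricSpace M] (Eigen : ℝ → (M → ℝ) → Prop) : Prop :=
  (∀ C C₁ C₂ : ℝ, 0 < C → 0 < C₁ → 0 < C₂ → ∃ A : ℝ, ∀ (lam : ℝ) (f : M → ℝ), 0 < lam → Eigen lam f →
    ∀ (κ : Type) [Fintype κ] (x : κ → M), Admissible f lam C C₁ C₂ x →
      (∑ i, doubling f (x i) (C / Real.sqrt lam)) / Fintype.card κ ≤ A) ∧
  (∀ q : ℝ, 1 ≤ q → q < 2 →
    ∀ C C₁ C₂ : ℝ, 0 < C → 0 < C₁ → 0 < C₂ → ∃ A : ℝ, ∀ (lam : ℝ) (f : M → ℝ), 0 < lam → Eigen lam f →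
    ∀ (κ : Type) [Fintype κ] (x : κ → M), Multiplicity lam C C₁ x → C₂⁻¹ * lam ≤ Fintype.card κ →
      (∑ i, doubling f (x i) (C / Real.sqrt lam) ^ q) / Fintype.card κ ≤ A) ∧
  (∀ q : ℝ, 1 ≤ q → q < 2 → ∃ K ϱ₁ : ℝ, 1 ≤ K ∧ 0 < ϱ₁ ∧
    ∀ C C₁ : ℝ, 0 < C → 0 < C₁ → ∃ A C₀ : ℝ, 0 < C₀ ∧ ∀ (lam : ℝ) (f : M → ℝ), 0 < lam → Eigen lam f →
    ∀ (κ : Type) [Fintype κ] (x : κ → M) (y : M) (ϱ : ℝ), Multiplicity lam C C₁ x →
      C₀ / Real.sqrt lam ≤ ϱ → ϱ ≤ ϱ₁ → (∀ i, x i ∈ Metric.ball y ϱ) →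
      ∑ i, doubling f (x i) (C / Real.sqrt lam) ^ q ≤ A * (lam * ϱ ^ 2) *
        (1 + Real.log (supNorm f (Metric.ball y (K * ϱ)) / supNorm f (Metric.ball y ϱ)) /
          (Real.sqrt lam * ϱ)) ^ q)

/-- The theorem for surfaces given by isothermal charts. -/
theorem isothermal : ∀ (M : Type u) (ι : Type v) [MetricSpace M] [CompactSpace M] [ConnectedSpace M]
    (U : ι → Set ℂ) (φ : ι → ℂ → M) (ρ : ι → ℂ → ℝ), RiemannianSurface U φ ρ →
    Conclusion M (IsEigenfunction U φ ρ) := by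
  intro M ι _ _ _ U φ ρ h
  have hR : Pool.Agent.Q73.AD.Riem U φ ρ := ⟨h.isOpen_domain, h.injective_chart, h.continuous_chart, h.open_chart,
    h.cover, h.density_pos, h.density_smooth, h.transition, h.geodesic⟩
  have hatl := Pool.Agent.Q73.AD.tr1 M ι U φ ρ hR
  have hρ : ∀ i, ∀ z ∈ U i, 0 ≤ ρ i z := fun i z hz => (h.density_pos i z hz).le
  have hmom : ∀ q : ℝ, 1 ≤ q → q < 2 →
    ∀ C C₁ C₂ : ℝ, 0 < C → 0 < C₁ → 0 < C₂ → ∃ A : ℝ, ∀ (lam : ℝ) (f : M → ℝ), 0 < lam →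
      IsEigenfunction U φ ρ lam f →
    ∀ (κ : Type) [Fintype κ] (x : κ → M), Multiplicity lam C C₁ x → C₂⁻¹ * lam ≤ Fintype.card κ →
      (∑ i, doubling f (x i) (C / Real.sqrt lam) ^ q) / Fintype.card κ ≤ A := by
    intro q hq hq2 C C₁ C₂ hC hC₁ hC₂
    obtain ⟨A, -, hA⟩ := Pool.Agent.Helper70x.AP.fin_glob.{u, v} hq hq2 M ι U φ ρ hatl hρ C C₁ C₂ hC hC₁ hC₂
    refine ⟨A, fun lam f hlam hf κ _ x hx hn => ?_⟩
    exact hA lam f κ x hlam (fun i => ⟨hf.smooth i, hf.eq i⟩) hf.ne hx hn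
  refine ⟨?_, hmom, ?_⟩
  · intro C C₁ C₂ hC hC₁ hC₂
    obtain ⟨A, hA⟩ := hmom 1 le_rfl one_lt_two C C₁ C₂ hC hC₁ hC₂
    refine ⟨A, fun lam f hlam hf κ _ x hx => ?_⟩
    have h1 := hA lam f hlam hf κ x hx.mult hx.card_ge
    simpa only [Real.rpow_one] using h1
  · intro q hq hq2
    obtain ⟨K, ϱ₁, hK, hϱ₁, hloc⟩ := Pool.Agent.Helper70x.AP.fin_loc.{u, v} hq hq2 M ι U φ ρ hatl hρ
    refine ⟨K, ϱ₁, hK, hϱ₁, fun C C₁ hC hC₁ => ?_⟩
    obtain ⟨A, C₀, -, hC₀, hA⟩ := hloc C C₁ hC hC₁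
    refine ⟨A, C₀, hC₀, fun lam f hlam hf κ _ x y ϱ hx hϱ hϱ' hb => ?_⟩
    refine hA lam f κ x y ϱ hlam (fun i => ⟨hf.smooth i, hf.eq i⟩) hf.ne hx hb hϱ' ?_
    rwa [div_le_iff₀ (Real.sqrt_pos.2 hlam), mul_comm] at hϱ

/-- **Q1 and moments of every order below two, at every scale**, on every closed connected Riemannian surface
(smooth Riemannian manifold of dimension two, in the sense of Mathlib, with its geodesic distance). -/
theorem result : ∀ (E : Type v) [NormedAddCommGroup E] [NormedSpace ℝ E] (b : Module.Basis (Fin 2) ℝ E)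
    (M : Type u) [MetricSpace M] [ChartedSpace E M] [IsManifold 𝓘(ℝ, E) ∞ M]
    [RiemannianBundle (fun x : M => TangentSpace 𝓘(ℝ, E) x)]
    [IsContMDiffRiemannianBundle 𝓘(ℝ, E) ∞ E (fun x : M => TangentSpace 𝓘(ℝ, E) x)]
    [IsRiemannianManifold 𝓘(ℝ, E) M] [CompactSpace M] [ConnectedSpace M],
    Conclusion M (IsEigenfunctionOn b) := by
  intro E _ _ b M _ _ _ _ _ _ _ _
  obtain ⟨U, φ, ρ, hR, -, hE⟩ := Pool.Agent.Q63.ISE.atlas b M
  have hc := isothermal.{u, u} M M U φ ρ ⟨hR.dom, hR.inj, hR.cont,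
    hR.opn, hR.cover, hR.pos, hR.dens, hR.trans, hR.geod⟩
  have key : ∀ (lam : ℝ) (f : M → ℝ), IsEigenfunctionOn b lam f → IsEigenfunction U φ ρ lam f := by
    intro lam f hf
    have h := hE lam f ⟨hf.smooth, hf.eq⟩
    exact ⟨fun i => (h i).1, fun i => (h i).2, hf.ne⟩
  obtain ⟨h1, h2, h3⟩ := hc
  refine ⟨?_, ?_, ?_⟩
  · intro C C₁ C₂ hC hC₁ hC₂
    obtain ⟨A, hA⟩ := h1 C C₁ C₂ hC hC₁ hC₂
    exact ⟨A, fun lam f hlam hf => hA lam f hlam (key lam f hf)⟩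
  · intro q hq hq2 C C₁ C₂ hC hC₁ hC₂
    obtain ⟨A, hA⟩ := h2 q hq hq2 C C₁ C₂ hC hC₁ hC₂
    exact ⟨A, fun lam f hlam hf => hA lam f hlam (key lam f hf)⟩
  · intro q hq hq2
    obtain ⟨K, ϱ₁, hK, hϱ₁, hKK⟩ := h3 q hq hq2
    refine ⟨K, ϱ₁, hK, hϱ₁, fun C C₁ hC hC₁ => ?_⟩
    obtain ⟨A, C₀, hC₀, hA⟩ := hKK C C₁ hC hC₁
    exact ⟨A, C₀, hC₀, fun lam f hlam hf => hA lam f hlam (key lam f hf)⟩

end

end Pool.Agent.Results.MP_c7f82c_an.MomentsBelowTwo
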